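import Mathlib
import Pool.Agent.Helper57.Mp.Operator

set_option autoImplicit false

open MeasureTheory Filter Topology
open scoped ENNReal NNReal

namespace Pool.Agent.Results.MP_0dd021_an.StepApproximation

/-- `ℓ^p(ℤ)`: the space of the Fourier coefficient sequences of the elements of `ℓ_p`. -/
abbrev Ell (p : ℝ≥0∞) : Type := lp (fun _ : ℤ => ℂ) p

/-- The bounded operator `T` of `ℓ^p(ℤ)` is, on the Fourier side, the multiplication `f ↦ φ f`:
for every `k` it maps the coefficient sequence of `e_k(x) = exp (2 π i k x)`, which is the unit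
vector at `k`, to the coefficient sequence of the function `φ e_k`. (For `p < ∞` the trigonometric
polynomials are dense in `ℓ_p`, so that there is at most one such operator.) -/
def IsMultiplication (p : ℝ≥0∞) [Fact (1 ≤ p)] (φ : UnitAddCircle → ℂ)
    (T : Ell p →L[ℂ] Ell p) : Prop :=
  Integrable φ AddCircle.haarAddCircle ∧
    ∀ k n : ℤ, T (lp.single p k (1 : ℂ)) n = fourierCoeff (fun x => fourier k x * φ x) n

/-- The norm of `φ` in `M_p`: the norm of the operator `f ↦ φ f` of `ℓ_p`. It is `∞` when there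
is no such bounded operator, that is, when `φ` is not in `M_p`. -/
noncomputable def multiplierNorm (p : ℝ≥0∞) [Fact (1 ≤ p)] (φ : UnitAddCircle → ℂ) : ℝ≥0∞ :=
  ⨅ T : {T : Ell p →L[ℂ] Ell p // IsMultiplication p φ T}, ‖T.1‖ₑ

/-- Arcs of the circle `ℝ / ℤ`: the images of the intervals of `ℝ` with end points `a`, `b`, which
may be open, closed or half open. -/
def IsArc (s : Set UnitAddCircle) : Prop :=
  ∃ (a b : ℝ) (I : Set ℝ), Set.Ioo a b ⊆ I ∧ I ⊆ Set.Icc a b ∧
    s = (fun x : ℝ => (x : UnitAddCircle)) '' I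

/-- The space `PC₀`: functions taking finitely many values, each on a finite union of arcs. -/
def PC0 (g : UnitAddCircle → ℂ) : Prop :=
  (Set.range g).Finite ∧ ∀ c : ℂ, ∃ A : Set (Set UnitAddCircle), A.Finite ∧
    (∀ s ∈ A, IsArc s) ∧ g ⁻¹' {c} = ⋃₀ A

/-- The space `PC`: the closure of `PC₀` in the norm of `L^∞` of the circle. -/
def PC (f : UnitAddCircle → ℂ) : Prop :=
  ∀ ε : ℝ≥0∞, 0 < ε → ∃ g : UnitAddCircle → ℂ, PC0 g ∧
    eLpNorm (fun x => f x - g x) ⊤ AddCircle.haarAddCircle < ε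

open Pool.Agent.Helper57.Mp

private lemma arc_nhds {s : Set UnitAddCircle} {a b : ℝ} {I : Set ℝ} (h1 : Set.Ioo a b ⊆ I)
    (h2 : I ⊆ Set.Icc a b) (hs : s = (fun x : ℝ => (x : UnitAddCircle)) '' I)
    {x : UnitAddCircle} (hx : x ∈ s) (ha : x ≠ (a : UnitAddCircle))
    (hb : x ≠ (b : UnitAddCircle)) : s ∈ 𝓝 x := by
  subst hs
  obtain ⟨y, hy, rfl⟩ := hx
  have h3 := h2 hy
  have h4 : y ≠ a := fun h => ha (by rw [h])
  have h5 : y ≠ b := fun h => hb (by rw [h])
  have h6 : y ∈ Set.Ioo a b := ⟨lt_of_le_of_ne h3.1 (Ne.symm h4), lt_of_le_of_ne h3.2 h5⟩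
  have h7 : IsOpen ((fun x : ℝ => (x : UnitAddCircle)) '' Set.Ioo a b) :=
    QuotientAddGroup.isOpenMap_coe _ isOpen_Ioo
  exact Filter.mem_of_superset (h7.mem_nhds ⟨y, h6, rfl⟩) (Set.image_mono h1)

private lemma arc_measurable {s : Set UnitAddCircle} (h : IsArc s) : MeasurableSet s := by
  obtain ⟨a, b, I, h1, h2, rfl⟩ := h
  have h3 : I = Set.Ioo a b ∪ (I ∩ {a, b}) := by
    ext y
    constructor
    · intro hy
      have h4 := h2 hy
      by_cases h5 : y = a
      · exact Or.inr ⟨hy, by simp [h5]⟩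
      · by_cases h6 : y = b
        · exact Or.inr ⟨hy, by simp [h6]⟩
        · exact Or.inl ⟨lt_of_le_of_ne h4.1 (Ne.symm h5), lt_of_le_of_ne h4.2 h6⟩
    · rintro (h4 | h4)
      · exact h1 h4
      · exact h4.1
  rw [h3, Set.image_union]
  have h7 : IsOpen ((fun x : ℝ => (x : UnitAddCircle)) '' Set.Ioo a b) :=
    QuotientAddGroup.isOpenMap_coe _ isOpen_Ioo
  refine h7.measurableSet.union (Set.Finite.measurableSet ?_)
  exact (Set.Finite.subset (Set.toFinite {a, b}) Set.inter_subset_right).image _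

private lemma isStep_of_pc0 {g : UnitAddCircle → ℂ} (hg : PC0 g) : IsStep g := by
  obtain ⟨hr, hA⟩ := hg
  choose A hAf hArc hpre using hA
  refine ⟨?_, ?_⟩
  · have h1 : ∀ c, MeasurableSet (g ⁻¹' {c}) := by
      intro c
      rw [hpre c]
      exact (hAf c).measurableSet_sUnion fun s hs => arc_measurable (hArc c s hs)
    exact (SimpleFunc.integrable_of_isFiniteMeasure (⟨g, h1, hr⟩ : SimpleFunc UnitAddCircle ℂ))
  · choose! a b I h1 h2 h3 using hArc
    refine ⟨⋃ c ∈ Set.range g, ⋃ s ∈ A c, {((a c s : ℝ) : UnitAddCircle),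
      ((b c s : ℝ) : UnitAddCircle)}, ?_, ?_⟩
    · exact hr.biUnion fun c _ => (hAf c).biUnion fun s _ => Set.toFinite _
    · intro x hx
      simp only [Set.mem_iUnion, not_exists] at hx
      have h4 : x ∈ ⋃₀ A (g x) := by
        rw [← hpre (g x)]
        rfl
      obtain ⟨s, hs, hxs⟩ := h4
      have h5 := hx (g x) ⟨x, rfl⟩ s hs
      simp only [Set.mem_insert_iff, Set.mem_singleton_iff, not_or] at h5
      have h6 := arc_nhds (h1 _ s hs) (h2 _ s hs) (h3 _ s hs) hxs h5.1 h5.2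
      filter_upwards [h6] with y hy
      have h7 : y ∈ g ⁻¹' {g x} := by
        rw [hpre (g x)]
        exact ⟨s, hs, hy⟩
      exact h7

private lemma pc0_of_isStep {s : UnitAddCircle → ℂ} (hs : IsStep s) : PC0 s := by
  classical
  obtain ⟨m, t, c, ht, ht0, ht1, hg⟩ := sstep_of_isStep hs
  have hcover : ∀ y : UnitAddCircle, (∃ i : Fin (m + 1), y = (t i : UnitAddCircle)) ∨
      ∃ i : Fin m, ∃ x ∈ Set.Ioo (t i.castSucc) (t i.succ), y = (x : UnitAddCircle) := by
    intro y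
    set x := fr y with hx
    have hx0 : 0 ≤ x := fr_nonneg y
    have hx1 : x < 1 := fr_lt_one y
    by_cases hne : ∃ k, x = t k
    · obtain ⟨k, hk⟩ := hne
      exact Or.inl ⟨k, by rw [← hk, hx, coe_fr]⟩
    · push Not at hne
      right
      obtain ⟨k, hk, hmax⟩ :=
        (Finset.univ.filter (fun k : Fin (m + 1) => t k ≤ x)).exists_max_image
        id ⟨0, by rw [Finset.mem_filter]; exact ⟨Finset.mem_univ _, by rw [ht0]; exact hx0⟩⟩
      rw [Finset.mem_filter] at hk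
      have hkl : k ≠ Fin.last m := by
        rintro rfl
        rw [ht1] at hk
        linarith [hk.2]
      obtain ⟨i, rfl⟩ := Fin.exists_castSucc_eq.mpr hkl
      refine ⟨i, x, ⟨lt_of_le_of_ne hk.2 (fun h => hne _ h.symm), not_le.mp fun h => ?_⟩, ?_⟩
      · have h5 := hmax i.succ (by rw [Finset.mem_filter]; exact ⟨Finset.mem_univ _, h⟩)
        simp only [id] at h5
        exact absurd (Fin.castSucc_lt_succ (i := i)) (not_lt.mpr h5)
      · rw [hx, coe_fr]
  refine ⟨?_, fun v => ?_⟩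
  · refine Set.Finite.subset ((Set.finite_range c).union
      (Set.finite_range fun i : Fin (m + 1) => s (t i : UnitAddCircle))) ?_
    rintro _ ⟨y, rfl⟩
    rcases hcover y with ⟨i, rfl⟩ | ⟨i, x, hx, rfl⟩
    · exact Or.inr ⟨i, rfl⟩
    · exact Or.inl ⟨i, (hg i x hx).symm⟩
  · refine ⟨((fun i : Fin m => (fun x : ℝ => (x : UnitAddCircle)) ''
      Set.Ioo (t i.castSucc) (t i.succ)) '' {i | c i = v}) ∪
      ((fun i : Fin (m + 1) => (fun x : ℝ => (x : UnitAddCircle)) '' {t i}) ''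
        {i | s (t i : UnitAddCircle) = v}), ?_, ?_, ?_⟩
    · exact ((Set.toFinite _).image _).union ((Set.toFinite _).image _)
    · rintro _ (⟨i, _, rfl⟩ | ⟨i, _, rfl⟩)
      · exact ⟨t i.castSucc, t i.succ, _, subset_rfl, Set.Ioo_subset_Icc_self, rfl⟩
      · exact ⟨t i, t i, _, by simp, by simp, rfl⟩
    · ext y
      simp only [Set.mem_preimage, Set.mem_singleton_iff, Set.mem_sUnion]
      constructor
      · intro hy
        rcases hcover y with ⟨i, rfl⟩ | ⟨i, x, hx, rfl⟩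
        · exact ⟨_, Or.inr ⟨i, hy, rfl⟩, ⟨t i, rfl, rfl⟩⟩
        · exact ⟨_, Or.inl ⟨i, (hg i x hx).symm.trans hy, rfl⟩, ⟨x, hx, rfl⟩⟩
      · rintro ⟨_, (⟨i, hi, rfl⟩ | ⟨i, hi, rfl⟩), ⟨x, hx, rfl⟩⟩
        · exact (hg i x hx).trans hi
        · rw [Set.mem_singleton_iff.mp hx]
          exact hi

private lemma ae_of_eLpNorm_lt {f g : UnitAddCircle → ℂ} {ε : ℝ} (hε : 0 ≤ ε)
    (h : eLpNorm (fun x => f x - g x) ⊤ AddCircle.haarAddCircle ≤ ENNReal.ofReal ε) :
    ∀ᵐ x ∂(AddCircle.haarAddCircle : Measure UnitAddCircle), ‖f x - g x‖ ≤ ε := by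
  rw [eLpNorm_exponent_top] at h
  filter_upwards [ae_le_eLpNormEssSup (f := fun x => f x - g x) (μ := AddCircle.haarAddCircle)]
    with x hx
  have h3 := hx.trans h
  rw [← ofReal_norm] at h3
  exact (ENNReal.ofReal_le_ofReal_iff hε).mp h3

private lemma happ_of_pc {f : UnitAddCircle → ℂ} (hf : PC f) : ∀ ε : ℝ, 0 < ε →
    ∃ (D : Finset T1) (j : T1 → ℂ) (c : ℂ),
      ∀ᵐ x ∂μT, ‖f x - bsum c D (fun t _ => j t) x‖ ≤ ε := by
  intro ε hε
  obtain ⟨g, hg, hfg⟩ := hf (ENNReal.ofReal ε) (ENNReal.ofReal_pos.mpr hε)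
  obtain ⟨D, j, c, hD⟩ := bsum_of_sstep (sstep_of_isStep (isStep_of_pc0 hg))
  refine ⟨D, j, c, ?_⟩
  filter_upwards [hD, ae_of_eLpNorm_lt hε.le hfg.le] with y hy hy'
  rw [← hy]
  simp only [coe_fr]
  exact hy'

private lemma isConv_of_isMultiplication {p : ℝ≥0∞} [Fact (1 ≤ p)] {φ : UnitAddCircle → ℂ}
    {T : Ell p →L[ℂ] Ell p} (h : IsMultiplication p φ T) : IsConv (fc φ) T := by
  intro k n
  rw [h.2 k n, ← fc_ee_mul]
  rfl

private lemma isMultiplication_of_isConv {p : ℝ≥0∞} [Fact (1 ≤ p)] {φ : UnitAddCircle → ℂ}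
    {T : Ell p →L[ℂ] Ell p} (hφ : Integrable φ AddCircle.haarAddCircle)
    (h : IsConv (fc φ) T) : IsMultiplication p φ T := by
  refine ⟨hφ, fun k n => ?_⟩
  rw [h k n, ← fc_ee_mul]
  rfl

private lemma exists_of_lt_top {p : ℝ≥0∞} [Fact (1 ≤ p)] {φ : UnitAddCircle → ℂ} {C : ℝ≥0∞}
    (h : multiplierNorm p φ < C) :
    ∃ T : Ell p →L[ℂ] Ell p, IsMultiplication p φ T ∧ ‖T‖ₑ < C := by
  unfold multiplierNorm at h
  obtain ⟨T, hT⟩ := iInf_lt_iff.mp h
  exact ⟨T.1, T.2, hT⟩

/-- The operator is unique. -/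
private lemma isMultiplication_unique {p : ℝ≥0∞} [Fact (1 ≤ p)] (hp : p ≠ ⊤)
    {φ : UnitAddCircle → ℂ} {T T' : Ell p →L[ℂ] Ell p} (h : IsMultiplication p φ T)
    (h' : IsMultiplication p φ T') : T = T' := by
  ext1 a
  have h1 := lp.hasSum_single hp a
  have h2 : ∀ S : Ell p →L[ℂ] Ell p, IsConv (fc φ) S →
      HasSum (fun k => S (lp.single p k (a k))) (S a) := fun S _ => h1.mapL S
  have h3 : ∀ k, T (lp.single p k (a k)) = T' (lp.single p k (a k)) := by
    intro k
    rw [← smul_single, map_smul, map_smul]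
    congr 1
    ext n
    rw [h.2 k n, h'.2 k n]
  have h4 := h2 T (isConv_of_isMultiplication h)
  have h5 := h2 T' (isConv_of_isMultiplication h')
  simp_rw [h3] at h4
  exact h4.unique h5

private lemma multiplierNorm_eq {p : ℝ≥0∞} [Fact (1 ≤ p)] (hp : p ≠ ⊤) {φ : UnitAddCircle → ℂ}
    {T : Ell p →L[ℂ] Ell p} (h : IsMultiplication p φ T) : multiplierNorm p φ = ‖T‖ₑ := by
  unfold multiplierNorm
  apply le_antisymm
  · exact iInf_le (fun T : {T : Ell p →L[ℂ] Ell p // IsMultiplication p φ T} => ‖T.1‖ₑ) ⟨T, h⟩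
  · exact le_iInf fun S => by rw [isMultiplication_unique hp h S.2]

private lemma ae_zero {f : UnitAddCircle → ℂ} (hf : PC f) (hfi : Integrable f μT)
    (h : ∀ n, fc f n = 0) : f =ᵐ[μT] 0 := by
  obtain ⟨D, j, c, hD⟩ := happ_of_pc hf 1 one_pos
  obtain ⟨M, _, hM⟩ := norm_bsum_le c D (fun t _ => j t) (fun t _ => Pool.Agent.Helper57.Mp.Lp.const _)
  have h2 : MemLp f 2 μT := by
    apply MemLp.of_bound hfi.1 (M + 1)
    filter_upwards [hD] with x hx
    have h3 : f x = (f x - bsum c D (fun t _ => j t) x) + bsum c D (fun t _ => j t) x := by ring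
    rw [h3]
    refine (norm_add_le _ _).trans ?_
    linarith [hM x]
  have h3 := hasSum_fourier_series_L2 (T := 1) (h2.toLp f)
  have h4 : ∀ i : ℤ, fourierCoeff (h2.toLp f : UnitAddCircle → ℂ) i = 0 := by
    intro i
    rw [← h i]
    unfold fc fourierCoeff
    apply integral_congr_ae
    filter_upwards [h2.coeFn_toLp] with x hx
    rw [hx]
    rfl
  simp_rw [h4, zero_smul] at h3
  have h5 : h2.toLp f = 0 := h3.unique hasSum_zero
  have h6 := h2.coeFn_toLp
  rw [h5] at h6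
  exact h6.symm.trans (MeasureTheory.Lp.coeFn_zero ℂ 2 μT)

private lemma tendsto_of_bound {f : UnitAddCircle → ℂ} {g : ℕ → UnitAddCircle → ℂ}
    (h : ∀ n : ℕ, ∀ᵐ x ∂μT, ‖f x - g n x‖ ≤ 1 / ((n : ℝ) + 1)) :
    Tendsto (fun n => eLpNorm (fun x => g n x - f x) ⊤ μT) atTop (𝓝 0) := by
  have h1 : ∀ n : ℕ, eLpNorm (fun x => g n x - f x) ⊤ μT ≤
      ENNReal.ofReal (1 / ((n : ℝ) + 1)) := by
    intro n
    rw [eLpNorm_exponent_top]
    apply eLpNormEssSup_le_of_ae_bound
    filter_upwards [h n] with x hx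
    rw [norm_sub_rev]
    exact hx
  have h2 : Tendsto (fun n : ℕ => ENNReal.ofReal (1 / ((n : ℝ) + 1))) atTop (𝓝 0) := by
    rw [← ENNReal.ofReal_zero]
    exact ENNReal.tendsto_ofReal tendsto_one_div_add_atTop_nhds_zero_nat
  exact tendsto_of_tendsto_of_tendsto_of_le_of_le tendsto_const_nhds h2 (fun n => zero_le) h1

/-- **Step function approximation of piecewise continuous multipliers.** Let `1 < p < ∞`. There is
a constant `K`, depending on `p` only, such that every `f` in `PC ∩ M_p` is the limit in `L^∞` of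
functions `g_n` in `PC₀` with `‖g_n‖_{M_p} ≤ K ‖f‖_{M_p}` for all `n`. -/
theorem result (p : ℝ≥0∞) [Fact (1 ≤ p)] (hp1 : 1 < p) (hp : p < ⊤) :
    ∃ K : ℝ≥0, ∀ f : UnitAddCircle → ℂ, PC f → multiplierNorm p f < ⊤ →
      ∃ g : ℕ → UnitAddCircle → ℂ, (∀ n, PC0 (g n)) ∧
        (∀ n, multiplierNorm p (g n) ≤ K * multiplierNorm p f) ∧
        Tendsto (fun n => eLpNorm (fun x => g n x - f x) ⊤ AddCircle.haarAddCircle)
          atTop (𝓝 0) := by
  have hp1' : 1 < p.toReal := by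
    rw [← ENNReal.toReal_one]
    exact (ENNReal.toReal_lt_toReal ENNReal.one_ne_top hp.ne).mpr hp1
  have hpq : p.toReal.HolderConjugate (p.toReal / (p.toReal - 1)) :=
    Real.HolderConjugate.conjExponent hp1'
  obtain ⟨C, hC0, hC⟩ := circle_uniform hpq 1 zero_le_one
  set κ : ℝ := (strongC p.toReal (p.toReal / (p.toReal - 1)) C) ^ (1 / p.toReal) with hκ
  have hκ0 : 0 ≤ κ := Real.rpow_nonneg (strongC_nonneg hpq hC0) _
  refine ⟨κ.toNNReal, fun f hf hfn => ?_⟩
  obtain ⟨T, hT, _⟩ := exists_of_lt_top hfn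
  have hfi : Integrable f μT := hT.1
  have hconv := isConv_of_isMultiplication hT
  have hM := mult_of_op hpq hconv
  rw [multiplierNorm_eq hp.ne hT]
  rcases eq_or_lt_of_le (norm_nonneg T) with h0 | h0
  · -- the operator is zero
    have hT0 : T = 0 := norm_eq_zero.mp h0.symm
    have h1 : ∀ n, fc f n = 0 := by
      intro n
      have h2 := hconv 0 n
      rw [sub_zero] at h2
      rw [← h2, hT0]
      rfl
    have h2 := ae_zero hf hfi h1
    refine ⟨fun _ _ => 0, fun _ => pc0_of_isStep (IsStep.const 0), fun n => ?_, ?_⟩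
    · have h3 : IsMultiplication p (fun _ : UnitAddCircle => (0 : ℂ)) (0 : Ell p →L[ℂ] Ell p) := by
        refine ⟨integrable_zero _ _ _, fun k n => ?_⟩
        simp [fourierCoeff]
      rw [multiplierNorm_eq hp.ne h3]
      have h4 : ‖(0 : Ell p →L[ℂ] Ell p)‖ₑ = 0 := by
        rw [← ofReal_norm, norm_zero, ENNReal.ofReal_zero]
      rw [h4]
      exact zero_le
    · apply tendsto_of_bound
      intro n
      filter_upwards [h2] with x hx
      rw [hx]
      simp only [Pi.zero_apply, sub_zero, norm_zero]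
      positivity
  · set A : ℝ := ‖T‖ with hA
    have hAc : (A : ℂ) ≠ 0 := by exact_mod_cast h0.ne'
    set f' : UnitAddCircle → ℂ := fun x => (A : ℂ)⁻¹ * f x with hf'
    have hfi' : Integrable f' μT := hfi.const_mul _
    have hM' : Mult p.toReal (p.toReal / (p.toReal - 1)) (fc f') 1 := by
      have h1 := hM.const_mul (A : ℂ)⁻¹
      rw [norm_inv, Complex.norm_real, Real.norm_of_nonneg h0.le, inv_mul_cancel₀ h0.ne'] at h1
      exact h1.congr fun n => (fc_const_mul _ _ _).symm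
    have happ' : ∀ ε : ℝ, 0 < ε → ∃ (D : Finset T1) (j : T1 → ℂ) (c : ℂ),
        ∀ᵐ x ∂μT, ‖f' x - bsum c D (fun t _ => j t) x‖ ≤ ε := by
      intro ε hε
      obtain ⟨D, j, c, hD⟩ := happ_of_pc hf (A * ε) (by positivity)
      refine ⟨D, fun t => (A : ℂ)⁻¹ * j t, (A : ℂ)⁻¹ * c, ?_⟩
      filter_upwards [hD] with x hx
      have h1 : bsum ((A : ℂ)⁻¹ * c) D (fun t _ => (A : ℂ)⁻¹ * j t) x =
          (A : ℂ)⁻¹ * bsum c D (fun t _ => j t) x := by
        simp only [bsum, mul_add, Finset.mul_sum, mul_assoc]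
      rw [h1, hf', ← mul_sub, norm_mul, norm_inv, Complex.norm_real, Real.norm_of_nonneg h0.le,
        inv_mul_le_iff₀ h0]
      exact hx
    choose s hs1 hs2 hs3 using fun n : ℕ => hC f' hfi' hM' happ' (1 / ((n : ℝ) + 1) / A)
      (by positivity)
    refine ⟨fun n x => (A : ℂ) * s n x, fun n => pc0_of_isStep ((hs1 n).const_mul _),
      fun n => ?_, ?_⟩
    · obtain ⟨S, hS, hSn⟩ := op_of_mult hp.ne hpq (hs3 n)
      have h1 : IsMultiplication p (fun x => (A : ℂ) * s n x) ((A : ℂ) • S) := by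
        apply isMultiplication_of_isConv ((hs1 n).1.const_mul _)
        intro k m
        rw [fc_const_mul, ← hS k m]
        rfl
      rw [multiplierNorm_eq hp.ne h1, enorm_smul, mul_comm]
      have h2 : ‖(A : ℂ)‖ₑ = ‖T‖ₑ := by
        rw [← ofReal_norm, ← ofReal_norm, Complex.norm_real, Real.norm_of_nonneg h0.le]
      rw [h2]
      gcongr
      rw [← ofReal_norm]
      exact ENNReal.ofReal_le_ofReal hSn
    · apply tendsto_of_bound
      intro n
      filter_upwards [hs2 n] with x hx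
      have h1 : f x - (A : ℂ) * s n x = (A : ℂ) * (f' x - s n x) := by
        rw [hf', mul_sub, mul_inv_cancel_left₀ hAc]
      rw [h1, norm_mul, Complex.norm_real, Real.norm_of_nonneg h0.le]
      rw [le_div_iff₀ h0] at hx
      linarith

end Pool.Agent.Results.MP_0dd021_an.StepApproximation
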